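import Pool.Agent.K6.H19.E5.LemB
import Pool.Agent.R895.Gen

/-!
# Rational sums of squares below a positive form of rank at most five
-/

set_option autoImplicit false

namespace Pool.Agent.K6.H19.E5

open Matrix Filter Topology Pool.Agent.R895

variable {n : ℕ} {J : Set (Fin n → ℂ)}

/-- The main decomposition theorem. -/
theorem RC_of_lt (hn : n ≤ 5) {H : Matrix (Fin n) (Fin n) ℂ} (hH : Pd H)
    (hHe : ∀ i j, IsEis (H i j)) {b h : ℝ} (hb : 0 ≤ b) (hbh : b < h)
    (hmin : ∀ w, IsLat w → w ≠ 0 → h ≤ q H w) (hJ : IsSub J) (hne : ∃ v, IsLat v ∧ v ∉ J) :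
    ((fun i j => H i j : Fin n → Fin n → ℂ), b) ∈ RC J := by
  have hh : 0 < h := lt_of_le_of_lt hb hbh
  set δ : ℝ := (h - b) / (2 * h) with hδ
  have hδ0 : 0 < δ := div_pos (by linarith) (by linarith)
  have hδ1 : δ < 1 := by
    rw [hδ, div_lt_one (by linarith)]
    linarith
  have hδh : (1 - δ) * h = (h + b) / 2 := by
    rw [hδ]
    field_simp
    ring
  obtain ⟨k, hk, hpd, hq⟩ := hH.shrink hδ0 hδ1
  refine mem_RC hH.1 hHe hk hpd (g := (h + b) / 2) (by linarith) fun M hM hM1 => ?_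
  refine Pool.Agent.K6.H19.E5.lemA hn hM hpd (by linarith) (fun w hw hw0 => ?_) hJ hne hM1
  rw [← hδh]
  exact le_trans (mul_le_mul_of_nonneg_left (hmin w hw hw0) (by linarith)) (hq w)

/-- The decomposition theorem for `J = 0`, where equality is allowed. -/
theorem RC_zero (hn0 : 2 ≤ n) (hn : n ≤ 5) {H : Matrix (Fin n) (Fin n) ℂ} (hH : Pd H)
    (hHe : ∀ i j, IsEis (H i j)) {h : ℝ} (hh : 0 < h)
    (hmin : ∀ w, IsLat w → w ≠ 0 → h ≤ q H w) :
    ((fun i j => H i j : Fin n → Fin n → ℂ), h) ∈ RC {0} := by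
  obtain ⟨k, hk, hpd, hq⟩ := hH.shrink (δ := 1 / 1000) (by norm_num) (by norm_num)
  refine mem_RC hH.1 hHe hk hpd (g := 1006 / 1000 * h) (by linarith) fun M hM hM1 => ?_
  have h1 := Pool.Agent.K6.H19.E5.lemA' hn0 hn hM hpd (h := 999 / 1000 * h) (by linarith) (fun w hw hw0 => by
    refine le_trans ?_ (hq w)
    have := hmin w hw hw0
    linarith) (fun v hv hv0 => hM1 v hv hv0)
  linarith

end Pool.Agent.K6.H19.E5
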