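import Pool.Agent.R895.Eis

/-!
# Deep holes of the Eisenstein integers
-/

set_option autoImplicit false

namespace Pool.Agent.K6.H19.E5

open Pool.Agent.R895

/-- The number `√-3`. -/
noncomputable def th : ℂ := 1 + 2 * om

theorem th_sq : th * th = -3 := by
  have : th * th = 1 + 4 * om + 4 * (om * om) := by unfold th; ring
  rw [this, om_sq]
  ring

theorem th_ne : th ≠ 0 := by
  intro h
  have := th_sq
  rw [h] at this
  norm_num at this

theorem th_eis : IsEis th := ⟨1, 2, by unfold th; push_cast; ring⟩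

theorem normSq_th : Complex.normSq th = 3 := by
  have := normSq_ab 1 2
  push_cast at this
  unfold th
  rw [this]
  norm_num

/-- Residues modulo `√-3`. -/
theorem exists_res {a : ℂ} (ha : IsEis a) : ∃ (s : ℤ) (b : ℂ), (s = 0 ∨ s = 1 ∨ s = -1) ∧
    IsEis b ∧ a = s + th * b := by
  obtain ⟨x, y, rfl⟩ := ha
  have key : ∀ s : ℤ, (∃ k : ℤ, x - s + y = 3 * k) → ∃ b : ℂ, IsEis b ∧
      (x : ℂ) + y * om = s + th * b := by
    rintro s ⟨k, hk⟩
    refine ⟨((2 * k - (x - s) : ℤ) : ℂ) + ((k - (x - s) : ℤ) : ℂ) * om, ⟨_, _, rfl⟩, ?_⟩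
    have h1 : th * (((2 * k - (x - s) : ℤ) : ℂ) + ((k - (x - s) : ℤ) : ℂ) * om) =
        (2 * k - (x - s)) + (k - (x - s) + 2 * (2 * k - (x - s))) * om +
          2 * (k - (x - s)) * (om * om) := by
      unfold th
      push_cast
      ring
    rw [h1, om_sq]
    have h2 : (y : ℂ) = 3 * k - (x - s) := by
      have : y = 3 * k - (x - s) := by omega
      rw [this]
      push_cast
      ring
    rw [h2]
    ring
  rcases (by omega : (x + y) % 3 = 0 ∨ (x + y) % 3 = 1 ∨ (x + y) % 3 = 2) with h | h | h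
  · obtain ⟨b, hb, h1⟩ := key 0 ⟨(x + y) / 3, by omega⟩
    exact ⟨0, b, Or.inl rfl, hb, h1⟩
  · obtain ⟨b, hb, h1⟩ := key 1 ⟨(x + y) / 3, by omega⟩
    exact ⟨1, b, Or.inr (Or.inl rfl), hb, h1⟩
  · obtain ⟨b, hb, h1⟩ := key (-1) ⟨(x + y) / 3 + 1, by omega⟩
    exact ⟨-1, b, Or.inr (Or.inr rfl), hb, h1⟩

/-- The three shortest vectors of `θ⁻¹ ℤ[ω]` congruent to `1 / θ`, up to sign. -/
theorem inv_th : 1 / th = -(1 + 2 * om) / 3 := by
  rw [div_eq_iff th_ne]
  have : th * th = -3 := th_sq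
  unfold th at this ⊢
  linear_combination (1 / 3 : ℂ) * this

theorem om_th : om / th = (2 + om) / 3 := by
  have h : om / th = om * (1 / th) := by ring
  rw [h, inv_th]
  have h2 : om * (-(1 + 2 * om) / 3) = (-om - 2 * (om * om)) / 3 := by ring
  rw [h2, om_sq]
  ring

theorem omsq_th : om ^ 2 / th = (om - 1) / 3 := by
  have h : om ^ 2 / th = om * (om / th) := by ring
  rw [h, om_th]
  have h2 : om * ((2 + om) / 3) = (2 * om + om * om) / 3 := by ring
  rw [h2, om_sq]
  ring

/-- A point which is not near to an Eisenstein integer is very near to a deep hole. -/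
theorem near_hole {x : ℂ} {s : ℝ} (hs : s ≤ 1 / 10)
    (hx : ∀ e, IsEis e → 1 / 3 - s ≤ Complex.normSq (x - e)) :
    ∃ (α : ℤ) (a : ℂ), (α = 1 ∨ α = -1) ∧ IsEis a ∧
      Complex.normSq (x - (α + th * a) / th) ≤ 1 / 9 ∧
      Complex.normSq (x - (α + th * a) / th) ≤
        3 * (Complex.normSq (x - (α + th * a) / th) + s) ^ 2 := by
  obtain ⟨b, hb, hb2⟩ := exists_near (th * x)
  obtain ⟨α, a, hα, ha, rfl⟩ := exists_res hb
  have h1 : Complex.normSq (x - (α + th * a) / th) ≤ 1 / 9 := by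
    have h2 : th * x - (α + th * a) = th * (x - (α + th * a) / th) := by
      have := th_ne
      field_simp
    rw [h2, Complex.normSq_mul, normSq_th] at hb2
    linarith
  have hα' : α = 1 ∨ α = -1 := by
    rcases hα with rfl | h
    · exfalso
      have h3 := hx a ha
      have h4 : (((0 : ℤ) : ℂ) + th * a) / th = a := by
        have := th_ne
        push_cast
        field_simp
        ring
      rw [h4] at h1
      linarith
    · exact h
  refine ⟨α, a, hα', ha, h1, ?_⟩
  -- coordinates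
  obtain ⟨p, q, hpq⟩ := exists_coord (x - (α + th * a) / th)
  have hαsq : (α : ℝ) ^ 2 = 1 := by rcases hα' with rfl | rfl <;> norm_num
  have hαc : (α : ℂ) ^ 2 = 1 := by rcases hα' with rfl | rfl <;> norm_num
  have hae : IsEis (α : ℂ) := IsEis.intCast α
  have ht : Complex.normSq (x - (α + th * a) / th) = p ^ 2 - p * q + q ^ 2 := by
    rw [hpq, normSq_ab]
  -- the three neighbours
  have h5 : x - a = ((p - α / 3 : ℝ) : ℂ) + ((q - 2 * α / 3 : ℝ) : ℂ) * om := by
    have h6 : x - a = (x - (α + th * a) / th) + α * (1 / th) := by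
      have := th_ne
      field_simp
      ring
    rw [h6, hpq, inv_th]
    push_cast
    ring
  have h7 : x - (a + α * om ^ 2) = ((p + 2 * α / 3 : ℝ) : ℂ) + ((q + α / 3 : ℝ) : ℂ) * om := by
    have h6 : x - (a + α * om ^ 2) = (x - (α + th * a) / th) + α * (1 / th - om * om) := by
      have := th_ne
      field_simp
      ring
    rw [h6, hpq, inv_th, om_sq]
    push_cast
    ring
  have h8 : x - (a - α * om) = ((p - α / 3 : ℝ) : ℂ) + ((q + α / 3 : ℝ) : ℂ) * om := by
    have h6 : x - (a - α * om) = (x - (α + th * a) / th) + α * (1 / th + om) := by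
      have := th_ne
      field_simp
      ring
    rw [h6, hpq, inv_th]
    push_cast
    ring
  have g5 := hx _ ha
  have g7 := hx _ (ha.add (hae.mul (IsEis.omega.pow 2)))
  have g8 := hx _ (ha.sub (hae.mul IsEis.omega))
  rw [h5, normSq_ab] at g5
  rw [h7, normSq_ab] at g7
  rw [h8, normSq_ab] at g8
  rw [ht]
  have k5 : 0 ≤ (p ^ 2 - p * q + q ^ 2) + s - α * q := by nlinarith
  have k7 : 0 ≤ (p ^ 2 - p * q + q ^ 2) + s + α * p := by nlinarith
  have k8 : 0 ≤ (p ^ 2 - p * q + q ^ 2) + s + α * (q - p) := by nlinarith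
  have e1 := mul_nonneg k5 k7
  have e2 := mul_nonneg k5 k8
  have e3 := mul_nonneg k7 k8
  have e4 : ((p ^ 2 - p * q + q ^ 2) + s - α * q) * ((p ^ 2 - p * q + q ^ 2) + s + α * p) +
    ((p ^ 2 - p * q + q ^ 2) + s - α * q) * ((p ^ 2 - p * q + q ^ 2) + s + α * (q - p)) +
    ((p ^ 2 - p * q + q ^ 2) + s + α * p) * ((p ^ 2 - p * q + q ^ 2) + s + α * (q - p)) =
    3 * ((p ^ 2 - p * q + q ^ 2) + s) ^ 2 - (α : ℝ) ^ 2 * (p ^ 2 - p * q + q ^ 2) := by ring
  rw [hαsq] at e4
  linarith

theorem norm_le_of_normSq {z : ℂ} {c : ℝ} (hc : 0 ≤ c) (h : Complex.normSq z ≤ c ^ 2) : ‖z‖ ≤ c := by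
  rw [Complex.normSq_eq_norm_sq] at h
  exact le_of_sq_le_sq h hc

theorem norm_inv_th : ‖(1 : ℂ) / th‖ ≤ 5774 / 10000 := by
  refine norm_le_of_normSq (by norm_num) ?_
  rw [Complex.normSq_div, normSq_th]
  norm_num

/-- One of three consecutive numbers is divisible by `√-3` after an affine map. -/
theorem exists_div {a f w β : ℂ} {α : ℤ} (hα : α = 1 ∨ α = -1) (ha : IsEis a) (hf : IsEis f)
    (hw : IsEis w) (hβ : β = 1 ∨ β = -1) :
    ∃ t : ℂ, (t = 0 ∨ t = -β * om ^ 2 ∨ t = β * om) ∧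
      ∃ g, IsEis g ∧ (α + th * a) * (w + t) + f = th * g := by
  have hα2 : (α : ℂ) = 1 ∨ (α : ℂ) = -1 := by
    rcases hα with rfl | rfl
    · left; norm_num
    · right; norm_num
  have hae : IsEis ((α : ℂ) + th * a) := (IsEis.intCast α).add (th_eis.mul ha)
  obtain ⟨s, b, hs, hb, hsb⟩ := exists_res ((hae.mul hw).add hf)
  -- residues of the units
  have r1 : om = 1 + th * (-om ^ 2) := by
    have h1 : th * (-om ^ 2) = -(om * om) - 2 * om ^ 3 := by unfold th; ring
    rw [h1, om_cube, om_sq]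
    ring
  have r2 : om ^ 2 = 1 + th * om := by
    have h1 : th * om = om + 2 * (om * om) := by unfold th; ring
    rw [h1, om_sq]
    have h2 : om ^ 2 = om * om := by ring
    rw [h2, om_sq]
    ring
  have e2 : IsEis (om ^ 2) := IsEis.omega.pow 2
  have hβe : IsEis β := by
    rcases hβ with rfl | rfl
    · exact IsEis.one
    · exact IsEis.one.neg
  -- the value for `t = β u` with `u = 1 + θ u'`
  have step : ∀ (σ u u' : ℂ), u = 1 + th * u' → IsEis u → IsEis u' → IsEis σ → s + α * σ * β = 0 →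
      ∃ g, IsEis g ∧ (α + th * a) * (w + σ * β * u) + f = th * g := by
    intro σ u u' hu hue hu'e hσ h0
    refine ⟨b + σ * β * (α * u' + a * u), ?_, ?_⟩
    · exact hb.add ((hσ.mul hβe).mul (((IsEis.intCast α).mul hu'e).add (ha.mul hue)))
    · have h1 : (α + th * a) * (w + σ * β * u) + f =
          ((α + th * a) * w + f) + α * σ * β * u + th * (a * σ * β * u) := by ring
      rw [h1, hsb]
      have h2 : (s : ℂ) = -(α * σ * β) := by linear_combination h0
      rw [h2]
      linear_combination (α * σ * β : ℂ) * hu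
  rcases hs with rfl | hs
  · refine ⟨0, Or.inl rfl, b, hb, ?_⟩
    rw [add_zero, hsb]
    push_cast
    ring
  · have hs2 : (s : ℂ) = 1 ∨ (s : ℂ) = -1 := by
      rcases hs with rfl | rfl
      · left; norm_num
      · right; norm_num
    by_cases hc : (s : ℂ) = α * β
    · obtain ⟨g, hg, h1⟩ := step (-1) (om ^ 2) om r2 e2 IsEis.omega IsEis.one.neg (by rw [hc]; ring)
      refine ⟨_, Or.inr (Or.inl rfl), g, hg, ?_⟩
      rw [← h1]
      ring
    · have e3 : IsEis (-om ^ 2) := e2.neg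
      obtain ⟨g, hg, h1⟩ := step 1 om (-om ^ 2) r1 IsEis.omega e3 IsEis.one (by
        rcases hs2 with h | h <;> rcases hα2 with h' | h' <;> rcases hβ with h'' | h'' <;>
          rw [h, h', h''] at hc ⊢ <;> first | (norm_num; done) | exact absurd (by norm_num) hc)
      refine ⟨_, Or.inr (Or.inr rfl), g, hg, ?_⟩
      rw [← h1]
      ring

end Pool.Agent.K6.H19.E5
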