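import Pool.Agent.K6.H19.E5.Hole

/-!
# A lower bound for the product of two consecutive coefficients
-/

set_option autoImplicit false

namespace Pool.Agent.K6.H19.E5

open Pool.Agent.R895

theorem normSq_le_of_norm {z : ℂ} {c : ℝ} (h : ‖z‖ ≤ c) : Complex.normSq z ≤ c ^ 2 := by
  rw [Complex.normSq_eq_norm_sq]
  exact pow_le_pow_left₀ (norm_nonneg _) h 2

theorem norm_th : (1 : ℝ) < ‖th‖ := by
  have h := normSq_th
  rw [Complex.normSq_eq_norm_sq] at h
  nlinarith [norm_nonneg th]

/-- The second and the third coefficient of a reduced form. -/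
theorem rank3 {μ ν : ℝ} {x y z : ℂ} (hμ : 2 / 3 ≤ μ) (hν : 2 / 3 * μ ≤ ν)
    (hz : Complex.normSq z ≤ 1 / 3)
    (h1 : ∀ e, IsEis e → 1 ≤ Complex.normSq (e + x) + μ)
    (h2 : ∀ f, IsEis f → μ ≤ μ * Complex.normSq (f + z) + ν)
    (h3 : ∀ e f, IsEis e → IsEis f →
      1 ≤ Complex.normSq (e + f * x + y) + μ * Complex.normSq (f + z) + ν) :
    5 / 16 ≤ μ * ν := by
  by_contra hcon
  push Not at hcon
  have hμ2 : μ < 685 / 1000 := by nlinarith
  have hν2 : ν < 15 / 32 := by nlinarith
  -- `x` is near to a hole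
  obtain ⟨α, a, hα, ha, hx1, hx2⟩ := near_hole (x := x) (s := 184 / 10000) (by norm_num)
    fun e he => by
      have := h1 (-e) he.neg
      have h4 : -e + x = x - e := by ring
      rw [h4] at this
      linarith
  -- `z` is near to a hole
  obtain ⟨β, b, hβ, hb, hz1, hz2⟩ := near_hole (x := z) (s := 37 / 1000) (by norm_num)
    fun e he => by
      have h5 := h2 (-e) he.neg
      have h4 : -e + z = z - e := by ring
      rw [h4] at h5
      by_contra hc
      push Not at hc
      nlinarith
  have hξ : ‖x - (α + th * a) / th‖ ≤ 34 / 1000 := by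
    refine norm_le_of_normSq (by norm_num) ?_
    by_contra hc
    push Not at hc
    nlinarith [mul_nonneg (sub_nonneg.2 hc.le) (sub_nonneg.2 hx1)]
  have hζ : ‖z - (β + th * b) / th‖ ≤ 74 / 1000 := by
    refine norm_le_of_normSq (by norm_num) ?_
    by_contra hc
    push Not at hc
    nlinarith [mul_nonneg (sub_nonneg.2 hc.le) (sub_nonneg.2 hz1)]
  -- `y` is near to an element of `θ⁻¹ ℤ[ω]`
  obtain ⟨f, hf, hy⟩ := exists_near (th * y)
  have hy1 : ‖y - f / th‖ ≤ 3334 / 10000 := by
    refine norm_le_of_normSq (by norm_num) ?_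
    have h4 : th * y - f = th * (y - f / th) := by
      have := th_ne
      field_simp
    rw [h4, Complex.normSq_mul, normSq_th] at hy
    linarith
  have hβ2 : (β : ℂ) = 1 ∨ (β : ℂ) = -1 := by
    rcases hβ with rfl | rfl
    · left; norm_num
    · right; norm_num
  obtain ⟨t, ht, g, hg, hgt⟩ := exists_div (w := -b) hα ha hf hb.neg hβ2
  set v : ℂ := -b + t with hv
  have hβe : IsEis (β : ℂ) := IsEis.intCast β
  have hte : IsEis t := by
    rcases ht with rfl | rfl | rfl
    · exact IsEis.zero
    · exact hβe.neg.mul (IsEis.omega.pow 2)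
    · exact hβe.mul IsEis.omega
  have hve : IsEis v := hb.neg.add hte
  have hnβ : ‖(β : ℂ)‖ = 1 := by
    rcases hβ2 with h | h <;> rw [h] <;> simp
  have hnom : ‖om‖ = 1 := by
    have h4 := normSq_ab 0 1
    rw [Complex.ofReal_zero, Complex.ofReal_one, zero_add, one_mul, Complex.normSq_eq_norm_sq] at h4
    norm_num at h4
    rcases h4 with h5 | h5
    · exact h5
    · linarith [norm_nonneg om]
  have hnt : ‖(β : ℂ) / th + t‖ ≤ 5774 / 10000 := by
    have h4 : ∃ u : ℂ, ‖u‖ = 1 ∧ (β : ℂ) / th + t = β * u * (1 / th) := by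
      rcases ht with rfl | rfl | rfl
      · exact ⟨1, by simp, by ring⟩
      · refine ⟨om, hnom, ?_⟩
        have h5 := om_th
        have h6 := inv_th
        have h7 := om_sq
        have e1 : (β : ℂ) / th + -β * om ^ 2 = β * (1 / th - om * om) := by ring
        have e2 : (β : ℂ) * om * (1 / th) = β * (om / th) := by ring
        rw [e1, e2, h5, h6, h7]
        ring
      · refine ⟨om ^ 2, by rw [norm_pow, hnom, one_pow], ?_⟩
        have h5 := omsq_th
        have h6 := inv_th
        have e1 : (β : ℂ) / th + β * om = β * (1 / th + om) := by ring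
        have e2 : (β : ℂ) * om ^ 2 * (1 / th) = β * (om ^ 2 / th) := by ring
        rw [e1, e2, h5, h6]
        ring
    obtain ⟨u, hu, h5⟩ := h4
    rw [h5, norm_mul, norm_mul, hnβ, hu, one_mul, one_mul]
    exact norm_inv_th
  have hvz : ‖v + z‖ ≤ 6514 / 10000 := by
    have h4 : v + z = (z - (β + th * b) / th) + ((β : ℂ) / th + t) := by
      have := th_ne
      rw [hv]
      field_simp
      ring
    rw [h4]
    refine (norm_add_le _ _).trans ?_
    linarith
  have hz3 : ‖z‖ ≤ 5774 / 10000 := norm_le_of_normSq (by norm_num) (hz.trans (by norm_num))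
  have hvn : ‖v‖ ≤ 12288 / 10000 := by
    have h4 : v = (v + z) - z := by ring
    rw [h4]
    refine (norm_sub_le _ _).trans ?_
    linarith
  have hE : ‖-g + v * x + y‖ ≤ 3752 / 10000 := by
    have h4 : -g + v * x + y = v * (x - (α + th * a) / th) + (y - f / th) := by
      have h5 : v * ((α + th * a) / th) = g - f / th := by
        have := th_ne
        field_simp
        linear_combination hgt
      have h6 : v * (x - (α + th * a) / th) = v * x - v * ((α + th * a) / th) := by ring
      rw [h6, h5]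
      ring
    rw [h4]
    refine (norm_add_le _ _).trans ?_
    rw [norm_mul]
    have h5 : ‖v‖ * ‖x - (α + th * a) / th‖ ≤ 12288 / 10000 * (34 / 1000) :=
      mul_le_mul hvn hξ (norm_nonneg _) (by norm_num)
    linarith
  have h4 := h3 (-g) v hg.neg hve
  have h5 := normSq_le_of_norm hE
  have h6 := normSq_le_of_norm hvz
  have h7 : μ * Complex.normSq (v + z) ≤ 685 / 1000 * (6514 / 10000) ^ 2 :=
    mul_le_mul hμ2.le h6 (Complex.normSq_nonneg _) (by norm_num)
  linarith

end Pool.Agent.K6.H19.E5
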