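import Pool.Agent.K6.H19.E5.Red
import Pool.Agent.K6.H19.E5.Rk3

/-!
# The lower bound for the trace of a product of two positive forms in rank five
-/

set_option autoImplicit false

namespace Pool.Agent.K6.H19.E5

open Matrix Pool.Agent.R895

variable {n : ℕ}

section chain

variable {x : Fin n → Fin n → ℂ} {m : Fin n → ℝ}

theorem sum_three (hd : ∀ i, x i i = 1) (hz : ∀ i j, j < i → x i j = 0) {i j k : Fin n}
    (hij : (i : ℕ) + 1 = j) (hjk : (j : ℕ) + 1 = k) (e f : ℂ) :
    (∑ l, if i ≤ l then m l * Complex.normSq (star (x l) ⬝ᵥ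
      (Pi.single i (star e) + Pi.single j (star f) + Pi.single k 1 : Fin n → ℂ)) else 0) =
    m i * Complex.normSq (e + f * x i j + x i k) + m j * Complex.normSq (f + x j k) + m k := by
  set v : Fin n → ℂ := Pi.single i (star e) + Pi.single j (star f) + Pi.single k 1 with hv
  have hval : ∀ l, star (x l) ⬝ᵥ v = star (x l i * e + x l j * f + x l k) := by
    intro l
    rw [hv, dotProduct_add, dotProduct_add, dotProduct_single, dotProduct_single,
      dotProduct_single, Pi.star_apply, Pi.star_apply, Pi.star_apply, star_add, star_add,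
      star_mul', star_mul']
    ring
  have hns : ∀ z : ℂ, Complex.normSq (star z) = Complex.normSq z := fun z =>
    Complex.normSq_conj z
  have hij' : i < j := by rw [Fin.lt_def]; omega
  have hjk' : j < k := by rw [Fin.lt_def]; omega
  rw [← Finset.sum_subset (Finset.subset_univ ({i, j, k} : Finset (Fin n))) (by
    intro l _ hl
    split_ifs with hil
    · have hl' : l ≠ i ∧ l ≠ j ∧ l ≠ k := by simpa using hl
      have h1 : k < l := by
        rw [Fin.lt_def]
        have h2 := Fin.le_def.1 hil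
        have h3 : (l : ℕ) ≠ i := fun h => hl'.1 (Fin.ext h)
        have h4 : (l : ℕ) ≠ j := fun h => hl'.2.1 (Fin.ext h)
        have h5 : (l : ℕ) ≠ k := fun h => hl'.2.2 (Fin.ext h)
        omega
      rw [hval, hz l k h1, hz l j (hjk'.trans h1), hz l i (hij'.trans (hjk'.trans h1))]
      simp
    · rfl)]
  rw [Finset.sum_insert (by
      simp only [Finset.mem_insert, Finset.mem_singleton, not_or]
      exact ⟨hij'.ne, (hij'.trans hjk').ne⟩),
    Finset.sum_insert (by
      simp only [Finset.mem_singleton]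
      exact hjk'.ne), Finset.sum_singleton, if_pos le_rfl, if_pos hij'.le,
    if_pos (hij'.trans hjk').le, hval, hval, hval, hns, hns, hns, hd, hd, hd, hz j i hij',
    hz k i (hij'.trans hjk'), hz k j hjk']
  have e1 : (1 : ℂ) * e + x i j * f + x i k = e + f * x i j + x i k := by ring
  have e2 : (0 : ℂ) * e + 1 * f + x j k = f + x j k := by ring
  have e3 : (0 : ℂ) * e + 0 * f + 1 = 1 := by ring
  rw [e1, e2, e3]
  simp
  ring

theorem sum_two (hd : ∀ i, x i i = 1) (hz : ∀ i j, j < i → x i j = 0) {i j : Fin n}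
    (hij : (i : ℕ) + 1 = j) (e : ℂ) :
    (∑ l, if i ≤ l then m l * Complex.normSq (star (x l) ⬝ᵥ
      (Pi.single i (star e) + Pi.single j 1 : Fin n → ℂ)) else 0) =
    m i * Complex.normSq (e + x i j) + m j := by
  set v : Fin n → ℂ := Pi.single i (star e) + Pi.single j 1 with hv
  have hval : ∀ l, star (x l) ⬝ᵥ v = star (x l i * e + x l j) := by
    intro l
    rw [hv, dotProduct_add, dotProduct_single, dotProduct_single, Pi.star_apply, Pi.star_apply,
      star_add, star_mul']
    ring
  have hns : ∀ z : ℂ, Complex.normSq (star z) = Complex.normSq z := fun z =>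
    Complex.normSq_conj z
  have hij' : i < j := by rw [Fin.lt_def]; omega
  rw [← Finset.sum_subset (Finset.subset_univ ({i, j} : Finset (Fin n))) (by
    intro l _ hl
    split_ifs with hil
    · have hl' : l ≠ i ∧ l ≠ j := by simpa using hl
      have h1 : j < l := by
        rw [Fin.lt_def]
        have h2 := Fin.le_def.1 hil
        have h3 : (l : ℕ) ≠ i := fun h => hl'.1 (Fin.ext h)
        have h4 : (l : ℕ) ≠ j := fun h => hl'.2 (Fin.ext h)
        omega
      rw [hval, hz l j h1, hz l i (hij'.trans h1)]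
      simp
    · rfl)]
  rw [Finset.sum_insert (by
      simp only [Finset.mem_singleton]
      exact hij'.ne), Finset.sum_singleton, if_pos le_rfl, if_pos hij'.le, hval, hval, hns, hns,
    hd, hd, hz j i hij']
  have e1 : (1 : ℂ) * e + x i j = e + x i j := by ring
  have e2 : (0 : ℂ) * e + 1 = 1 := by ring
  rw [e1, e2]
  simp

variable (hm : ∀ i, 0 < m i) (hR : ∀ (i k : Fin n), i ≤ k → ∀ v, IsLat v → v k = 1 →
        m i ≤ ∑ j, if i ≤ j then m j * Complex.normSq (star (x j) ⬝ᵥ v) else 0)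
  (hd : ∀ i, x i i = 1) (hz : ∀ i j, j < i → x i j = 0)
  (hs : ∀ i j, i < j → Complex.normSq (x i j) ≤ 1 / 3)

include hR hd hz in
theorem two_le {i j : Fin n} (hij : (i : ℕ) + 1 = j) {e : ℂ} (he : IsEis e) :
    m i ≤ m i * Complex.normSq (e + x i j) + m j := by
  have hij' : i < j := by rw [Fin.lt_def]; omega
  have h1 := hR i j hij'.le (Pi.single i (star e) + Pi.single j 1) (fun l => by
    rw [Pi.add_apply, Pi.single_apply, Pi.single_apply]
    split_ifs
    · exact he.star.add IsEis.one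
    · exact he.star.add IsEis.zero
    · exact IsEis.zero.add IsEis.one
    · exact IsEis.zero.add IsEis.zero) (by
      rw [Pi.add_apply, Pi.single_eq_of_ne hij'.ne', Pi.single_eq_same, zero_add])
  rwa [sum_two hd hz hij] at h1

include hm hR hd hz hs in
theorem chain {i j : Fin n} (hij : (i : ℕ) + 1 = j) : 2 / 3 * m i ≤ m j := by
  have hij' : i < j := by rw [Fin.lt_def]; omega
  have h1 := two_le hR hd hz hij IsEis.zero
  rw [zero_add] at h1
  have h2 := mul_le_mul_of_nonneg_left (hs i j hij') (hm i).le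
  linarith

include hm hR hd hz hs in
/-- The product of two consecutive coefficients. -/
theorem prod_two {i j k : Fin n} (hij : (i : ℕ) + 1 = j) (hjk : (j : ℕ) + 1 = k) :
    5 / 16 * m i ^ 2 ≤ m j * m k := by
  have hij' : i < j := by rw [Fin.lt_def]; omega
  have hjk' : j < k := by rw [Fin.lt_def]; omega
  have hi := hm i
  have h := rank3 (μ := m j / m i) (ν := m k / m i) (x := x i j) (y := x i k) (z := x j k)
    (by
      rw [le_div_iff₀ hi]
      exact chain hm hR hd hz hs hij)
    (by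
      rw [← mul_div_assoc]
      exact div_le_div_of_nonneg_right (chain hm hR hd hz hs hjk) hi.le)
    (hs j k hjk')
    (fun e he => by
      have h1 := two_le hR hd hz hij he
      have h2 : m i * 1 ≤ m i * (Complex.normSq (e + x i j) + m j / m i) := by
        have h3 : m i * (Complex.normSq (e + x i j) + m j / m i) =
            m i * Complex.normSq (e + x i j) + m j := by field_simp
        rw [h3]
        linarith
      exact le_of_mul_le_mul_left h2 hi)
    (fun f hf => by
      have h1 := two_le hR hd hz hjk hf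
      have h3 : m j / m i * Complex.normSq (f + x j k) + m k / m i =
          (m j * Complex.normSq (f + x j k) + m k) / m i := by ring
      rw [h3]
      exact div_le_div_of_nonneg_right h1 hi.le)
    (fun e f he hf => by
      have h1 := hR i k (hij'.trans hjk').le
        (Pi.single i (star e) + Pi.single j (star f) + Pi.single k 1) (fun l => by
          have hh : ∀ (a : Fin n) {c : ℂ}, IsEis c → IsEis ((Pi.single a c : Fin n → ℂ) l) := by
            intro a c hc
            rw [Pi.single_apply]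
            split_ifs
            · exact hc
            · exact IsEis.zero
          exact ((hh i he.star).add (hh j hf.star)).add (hh k IsEis.one)) (by
          rw [Pi.add_apply, Pi.add_apply, Pi.single_eq_of_ne (hij'.trans hjk').ne',
            Pi.single_eq_of_ne hjk'.ne', Pi.single_eq_same, zero_add, zero_add])
      rw [sum_three hd hz hij hjk] at h1
      have h2 : m i * 1 ≤ m i * (Complex.normSq (e + f * x i j + x i k) +
          m j / m i * Complex.normSq (f + x j k) + m k / m i) := by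
        have h3 : m i * (Complex.normSq (e + f * x i j + x i k) +
            m j / m i * Complex.normSq (f + x j k) + m k / m i) =
            m i * Complex.normSq (e + f * x i j + x i k) + m j * Complex.normSq (f + x j k) +
              m k := by field_simp
        rw [h3]
        linarith
      exact le_of_mul_le_mul_left h2 hi)
  have h2 : m j / m i * (m k / m i) = m j * m k / m i ^ 2 := by
    field_simp
  rw [h2, le_div_iff₀ (by positivity)] at h
  exact h

end chain

/-- Hermite's inequality in rank five. -/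
theorem hermite5 {H : Matrix (Fin 5) (Fin 5) ℂ} (hH : Pd H) {h : ℝ} (hh : 0 < h)
    (hmin : ∀ w, IsLat w → w ≠ 0 → h ≤ q H w) :
    ∃ d : ℝ, H.det = d ∧ 0 < d ∧ 25 / 1296 * h ^ 5 ≤ d := by
  obtain ⟨g, x, m, hg, hm, hR, hd, hz, hs, hdec⟩ := exists_red2 5 H hH
  have h1 : H.det = ((∏ i, m i : ℝ) : ℂ) := by
    rw [← det_dec m x hd hz, ← hdec, det_mul, det_mul, det_conjTranspose]
    have h2 : star g.det * H.det * g.det = ((Complex.normSq g.det : ℝ) : ℂ) * H.det := by
      have : star g.det * g.det = ((Complex.normSq g.det : ℝ) : ℂ) :=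
        Complex.normSq_eq_conj_mul_self.symm
      rw [← this]; ring
    rw [h2, hg.normSq_det]
    simp
  refine ⟨∏ i, m i, h1, Finset.prod_pos fun i _ => hm i, ?_⟩
  have m0 : h ≤ m 0 := by
    have h2 := hmin _ (hg.mulVec (isLat_single 0)) (hg.mulVec_ne (single_ne 0))
    rw [q_single H g x m hdec 0, Finset.sum_eq_single 0] at h2
    · rw [hd] at h2
      simpa using h2
    · intro j _ hj
      rw [hz j 0 (Fin.pos_of_ne_zero hj)]
      simp
    · intro h; exact absurd (Finset.mem_univ _) h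
  have c0 := chain hm hR hd hz hs (i := 0) (j := 1) rfl
  have c1 := chain hm hR hd hz hs (i := 1) (j := 2) rfl
  have p0 := prod_two hm hR hd hz hs (i := 0) (j := 1) (k := 2) rfl rfl
  have p2 := prod_two hm hR hd hz hs (i := 2) (j := 3) (k := 4) rfl rfl
  have e : ∏ i, m i = m 0 * (m 1 * m 2) * (m 3 * m 4) := by
    simp [Fin.prod_univ_succ]
    ring
  have q2 : 4 / 9 * m 0 ≤ m 2 := by linarith
  have pos : ∀ i, 0 ≤ m i := fun i => (hm i).le
  have q2' : 16 / 81 * m 0 ^ 2 ≤ m 2 ^ 2 := by
    have := mul_le_mul q2 q2 (mul_nonneg (by norm_num) (pos 0)) (pos 2)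
    nlinarith
  have p2' : 5 / 81 * m 0 ^ 2 ≤ m 3 * m 4 := by linarith
  have p3 : (5 / 16 * m 0 ^ 2) * (5 / 81 * m 0 ^ 2) ≤ (m 1 * m 2) * (m 3 * m 4) :=
    mul_le_mul p0 p2' (by positivity) (mul_nonneg (pos 1) (pos 2))
  have p4 : m 0 * ((5 / 16 * m 0 ^ 2) * (5 / 81 * m 0 ^ 2)) ≤
      m 0 * ((m 1 * m 2) * (m 3 * m 4)) := mul_le_mul_of_nonneg_left p3 (pos 0)
  have p5 : h ^ 5 ≤ m 0 ^ 5 := pow_le_pow_left₀ hh.le m0 5
  rw [e]
  nlinarith

/-- The weighted sum of the successive Schur complements is greater than `h`. -/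
theorem V_ge5 {H : Matrix (Fin 5) (Fin 5) ℂ} (hH : Pd H) {h : ℝ}
    (hh : 0 < h) (hmin : ∀ w, IsLat w → w ≠ 0 → h ≤ q H w) :
    126 / 125 * h ≤ ∑ i : Fin 5, (2 / 3 : ℝ) ^ (i : ℕ) * hs 5 H i := by
  obtain ⟨d, hd, hd0, hdl⟩ := hermite5 hH hh hmin
  have h1 : (2 / 3 : ℝ) ^ 10 * d = ∏ i : Fin 5, ((2 / 3 : ℝ) ^ (i : ℕ) * hs 5 H i) := by
    rw [Finset.prod_mul_distrib, prod_hs 5 H hH, hd, Complex.ofReal_re]
    congr 1
    simp [Fin.prod_univ_succ]
    norm_num
  have h2 := amgm 5 (by norm_num) (fun i => (2 / 3 : ℝ) ^ (i : ℕ) * hs 5 H i)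
    (fun i => mul_nonneg (by positivity) (hs_pos 5 H hH i).le)
  rw [← h1] at h2
  set s := ∑ i : Fin 5, (2 / 3 : ℝ) ^ (i : ℕ) * hs 5 H i with hs'
  have hs0 : 0 ≤ s := Finset.sum_nonneg fun i _ => mul_nonneg (by positivity) (hs_pos 5 H hH i).le
  by_contra hcon
  push Not at hcon
  have h4 : (s / 5) ^ 5 < (126 / 125 * h / 5) ^ 5 :=
    pow_lt_pow_left₀ (div_lt_div_of_pos_right hcon (by norm_num)) (by positivity) (by norm_num)
  have h5 : (s / (5 : ℕ)) ^ 5 = (s / 5) ^ 5 := by norm_num
  rw [h5] at h2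
  have h6 := lt_of_le_of_lt h2 h4
  have h7 : (126 / 125 * h / 5) ^ 5 = (126 / 625) ^ 5 * h ^ 5 := by ring
  rw [h7] at h6
  have h8 := pow_pos hh 5
  nlinarith

/-- The final combination. -/
theorem comb5 {H : Matrix (Fin 5) (Fin 5) ℂ} (hH : Pd H) {h : ℝ}
    (hh : 0 < h) (hmin : ∀ w, IsLat w → w ≠ 0 → h ≤ q H w) (m : Fin 5 → ℝ) (hm : ∀ i, 0 < m i)
    (hch : ∀ i j : Fin 5, (i : ℕ) + 1 = j → 2 / 3 * m i ≤ m j) (k : Fin 5) :
    h * (m k + 1 / 3 * ∑ i ∈ Finset.univ.filter (· < k), m i) ≤ ∑ i, m i * hs 5 H i := by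
  have v0' := V_ge5 hH hh hmin
  have v0 : h ≤ ∑ i : Fin 5, (2 / 3 : ℝ) ^ (i : ℕ) * hs 5 H i := by linarith
  have v1 := V_ge (by norm_num) (by norm_num) hH.tl hh (min_tl hmin)
  have v2 := V_ge (by norm_num) (by norm_num) hH.tl.tl hh (min_tl (min_tl hmin))
  have v3 := V_ge (by norm_num) (by norm_num) hH.tl.tl.tl hh (min_tl (min_tl (min_tl hmin)))
  have v4 := V_ge (by norm_num) (by norm_num) hH.tl.tl.tl.tl hh
    (min_tl (min_tl (min_tl (min_tl hmin))))
  have c0 := hch 0 1 rfl
  have c1 := hch 1 2 rfl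
  have c2 := hch 2 3 rfl
  have c3 := hch 3 4 rfl
  have p0 := hm 0
  have a0 := mul_nonneg p0.le (sub_nonneg.2 v0)
  have a1 := mul_nonneg (sub_nonneg.2 c0) (sub_nonneg.2 v1)
  have a2 := mul_nonneg (sub_nonneg.2 c1) (sub_nonneg.2 v2)
  have a3 := mul_nonneg (sub_nonneg.2 c2) (sub_nonneg.2 v3)
  have a4 := mul_nonneg (sub_nonneg.2 c3) (sub_nonneg.2 v4)
  have b1 := mul_nonneg (sub_nonneg.2 c0) hh.le
  have b2 := mul_nonneg (sub_nonneg.2 c1) hh.le
  have b3 := mul_nonneg (sub_nonneg.2 c2) hh.le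
  have b4 := mul_nonneg (sub_nonneg.2 c3) hh.le
  clear v0' v0 v1 v2 v3 v4
  simp [Fin.sum_univ_succ, Finset.sum_filter, hs_succ] at a0 a1 a2 a3 a4 b1 b2 b3 b4 ⊢
  fin_cases k <;> simp <;> nlinarith

end Pool.Agent.K6.H19.E5
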