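import Pool.Agent.R895.LemB

/-!
# Reduction theory with more minimality conditions
-/

set_option autoImplicit false

namespace Pool.Agent.K6.H19.E5

open Matrix Pool.Agent.R895

variable {n : ℕ}

theorem exists_col {k : Fin (n + 1)} {v : Fin (n + 1) → ℂ} (hv : IsLat v) (hk : v k = 1) :
    ∃ g : Matrix (Fin (n + 1)) (Fin (n + 1)) ℂ, IsGL g ∧ g *ᵥ (Pi.single 0 1) = v := by
  -- the swap
  set P : Matrix (Fin (n + 1)) (Fin (n + 1)) ℂ :=
    (Equiv.swap (0 : Fin (n + 1)) k).toPEquiv.toMatrix with hP
  have hPe : ∀ i j, IsEis (P i j) := by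
    intro i j
    rw [hP, PEquiv.toMatrix_apply]
    split_ifs
    · exact IsEis.one
    · exact IsEis.zero
  have hPP : P * P = 1 := by
    rw [hP, ← PEquiv.toMatrix_trans]
    have : (Equiv.swap (0 : Fin (n + 1)) k).toPEquiv.trans
        (Equiv.swap (0 : Fin (n + 1)) k).toPEquiv = PEquiv.refl _ := by
      rw [← Equiv.toPEquiv_trans]
      have : (Equiv.swap (0 : Fin (n + 1)) k).trans (Equiv.swap 0 k) =
          Equiv.refl _ := by
        ext i
        simp
      rw [this]
      exact Equiv.toPEquiv_refl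
    rw [this, PEquiv.toMatrix_refl]
  have hPGL : IsGL P := ⟨hPe, P, hPe, hPP, hPP⟩
  have hPv : P *ᵥ (Pi.single 0 1) = Pi.single k 1 := by
    ext i
    have hiff : (0 : Fin (n + 1)) = Equiv.swap (0 : Fin (n + 1)) k i ↔ i = k := by
      constructor
      · intro h
        have := congrArg (Equiv.swap (0 : Fin (n + 1)) k) h
        rw [Equiv.swap_apply_left, Equiv.swap_apply_self] at this
        exact this.symm
      · rintro rfl
        rw [Equiv.swap_apply_right]
    rw [mulVec_single_one, col_apply, hP, PEquiv.toMatrix_apply, Pi.single_apply]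
    simp only [Equiv.toPEquiv_apply, Option.mem_def, Option.some_inj]
    by_cases hi : i = k
    · rw [if_pos (hiff.2 hi).symm, if_pos hi]
    · rw [if_neg (fun h => hi (hiff.1 h.symm)), if_neg hi]
  -- the transvection
  set e : Fin (n + 1) → ℂ := Pi.single k 1 with he
  set u : Fin (n + 1) → ℂ := v - e with hu
  have hel : IsLat e := isLat_single k
  have hul : IsLat u := fun i => (hv i).sub (hel i)
  have heu : e ⬝ᵥ u = 0 := by
    rw [he, single_dotProduct, hu, Pi.sub_apply, hk, he, Pi.single_eq_same]
    simp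
  have hsq : vecMulVec u e * vecMulVec u e = 0 := by
    ext i j
    rw [mul_apply, Matrix.zero_apply]
    have : ∀ l, vecMulVec u e i l * vecMulVec u e l j = (e l * u l) * (u i * e j) := fun l => by
      rw [vecMulVec_apply, vecMulVec_apply]
      ring
    rw [Finset.sum_congr rfl fun l _ => this l, ← Finset.sum_mul]
    have h : ∑ l, e l * u l = 0 := heu
    rw [h, zero_mul]
  set T : Matrix (Fin (n + 1)) (Fin (n + 1)) ℂ := 1 + vecMulVec u e with hT
  set T' : Matrix (Fin (n + 1)) (Fin (n + 1)) ℂ := 1 - vecMulVec u e with hT'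
  have h1 : T * T' = 1 := by
    rw [hT, hT', Matrix.add_mul, Matrix.mul_sub, Matrix.mul_sub, hsq]
    simp
  have h2 : T' * T = 1 := by
    rw [hT, hT', Matrix.sub_mul, Matrix.mul_add, Matrix.mul_add, hsq]
    simp
  have hone : ∀ i j, IsEis ((1 : Matrix (Fin (n + 1)) (Fin (n + 1)) ℂ) i j) := IsGL.one.ent
  have hvm : ∀ i j, IsEis (vecMulVec u e i j) := fun i j => by
    rw [vecMulVec_apply]
    exact (hul i).mul (hel j)
  have hTGL : IsGL T := ⟨fun i j => (hone i j).add (hvm i j), T',
    fun i j => (hone i j).sub (hvm i j), h1, h2⟩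
  refine ⟨T * P, hTGL.mul hPGL, ?_⟩
  rw [← mulVec_mulVec, hPv, hT, add_mulVec, one_mulVec]
  have h3 : vecMulVec u e *ᵥ e = u := by
    ext i
    rw [mulVec, dotProduct]
    have h4 : ∀ l, vecMulVec u e i l * e l = (e l * e l) * u i := fun l => by
      rw [vecMulVec_apply]
      ring
    rw [Finset.sum_congr rfl fun l _ => h4 l, ← Finset.sum_mul]
    have h5 : ∑ l, e l * e l = 1 := by
      rw [Finset.sum_eq_single k]
      · rw [he, Pi.single_eq_same, one_mul]
      · intro j _ hj
        rw [he, Pi.single_eq_of_ne hj, zero_mul]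
      · intro h
        exact absurd (Finset.mem_univ _) h
    rw [h5, one_mul]
  rw [h3, hu]
  exact add_sub_cancel _ _

/-- **Reduction theory.** -/
theorem exists_red2 : ∀ (n : ℕ) (M : Matrix (Fin n) (Fin n) ℂ), Pd M →
    ∃ (g : Matrix (Fin n) (Fin n) ℂ) (x : Fin n → Fin n → ℂ) (m : Fin n → ℝ), IsGL g ∧
      (∀ i, 0 < m i) ∧ (∀ (i k : Fin n), i ≤ k → ∀ v, IsLat v → v k = 1 →
        m i ≤ ∑ j, if i ≤ j then m j * Complex.normSq (star (x j) ⬝ᵥ v) else 0) ∧
      (∀ i, x i i = 1) ∧ (∀ i j, j < i → x i j = 0) ∧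
      (∀ i j, i < j → Complex.normSq (x i j) ≤ 1 / 3) ∧
      gᴴ * M * g = ∑ i, (m i : ℂ) • vecMulVec (x i) (star (x i)) := by
  intro n
  induction n with
  | zero =>
    intro M _
    exact ⟨1, fun i => i.elim0, fun i => i.elim0, IsGL.one, fun i => i.elim0, fun i => i.elim0,
      fun i => i.elim0, fun i => i.elim0, fun i => i.elim0, by ext i; exact i.elim0⟩
  | succ n ih =>
    intro M hM
    -- a minimal unimodular column
    obtain ⟨v, ⟨g₁, hg₁, rfl⟩, hmin⟩ := hM.exists_min
      (A := {v | ∃ g, IsGL g ∧ v = g *ᵥ (Pi.single 0 1)}) (by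
        rintro _ ⟨g, hg, rfl⟩
        refine hg.mulVec fun i => ?_
        by_cases hi : i = 0
        · rw [hi, Pi.single_eq_same]; exact IsEis.one
        · rw [Pi.single_eq_of_ne hi]; exact IsEis.zero) ⟨_, 1, IsGL.one, rfl⟩
    obtain ⟨a, x₀, M', ha, hx₀, haq, hM', hdec⟩ := (hM.conj hg₁).schur
    obtain ⟨g', x', m', hg', hm', hch, hd, hz, hs, hM'd⟩ := ih M' hM'
    -- size reduction
    choose e he1 he2 using fun j : Fin n => exists_near ((g'ᴴ *ᵥ (fun i => x₀ i.succ)) j)
    set c : Fin n → ℂ := fun j => -star (e j) with hc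
    set G := up c g' with hG
    have hGL : IsGL G := up_isGL _ _ (fun j => (he1 j).star.neg) hg'
    set y : Fin (n + 1) → ℂ := Gᴴ *ᵥ x₀ with hy
    have hy0 : y 0 = 1 := by
      simp [hy, hG, mulVec, dotProduct, Fin.sum_univ_succ, hx₀]
    have hys : ∀ j : Fin n, y j.succ = (g'ᴴ *ᵥ (fun i => x₀ i.succ)) j - e j := by
      intro j
      simp only [hy, hG, mulVec, dotProduct, Fin.sum_univ_succ, hx₀, conjTranspose_apply, up_zs,
        up_ss, hc, mul_one, star_neg, star_star]
      ring
    have hmat : (g₁ * G)ᴴ * M * (g₁ * G) = ∑ i : Fin (n + 1),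
        (((Fin.cons a m' : Fin (n + 1) → ℝ) i : ℝ) : ℂ) •
          vecMulVec ((Fin.cons y (fun i => Fin.cons 0 (x' i)) : Fin (n + 1) → Fin (n + 1) → ℂ) i)
            (star ((Fin.cons y (fun i => Fin.cons 0 (x' i)) : Fin (n + 1) → Fin (n + 1) → ℂ) i)) := by
      have h1 : (g₁ * G)ᴴ * M * (g₁ * G) = Gᴴ * (g₁ᴴ * M * g₁) * G := by
        rw [conjTranspose_mul]
        simp only [Matrix.mul_assoc]
      rw [h1, hdec, Matrix.mul_add, Matrix.add_mul, up_low, hM'd, low_sum, Fin.sum_univ_succ]
      simp only [Fin.cons_zero, Fin.cons_succ]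
      congr 1
      · rw [Matrix.mul_smul, Matrix.smul_mul, mul_vecMulVec, vecMulVec_mul, hy, star_mulVec,
          conjTranspose_conjTranspose]
      · exact Finset.sum_congr rfl fun i _ => low_vec _ _
    refine ⟨g₁ * G, Fin.cons y (fun i => Fin.cons 0 (x' i)), Fin.cons a m', hg₁.mul hGL, ?_, ?_,
      ?_, ?_, ?_, hmat⟩
    · intro i
      refine Fin.cases ?_ (fun i => ?_) i
      · exact ha
      · exact hm' i
    · intro i k hik v hv hk
      refine Fin.cases (fun hik => ?_) (fun i => ?_) i hik
      · -- the first step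
        obtain ⟨g₂, hg₂, hg₂v⟩ := exists_col hv hk
        have h1 := hmin _ ⟨g₁ * G * g₂, (hg₁.mul hGL).mul hg₂, rfl⟩
        rw [← mulVec_mulVec, hg₂v, ← q_conj M (g₁ * G), hmat, q_dec, ← q_conj M g₁, ← haq] at h1
        rw [Fin.cons_zero]
        refine h1.trans (le_of_eq (Finset.sum_congr rfl fun j _ => ?_))
        rw [if_pos (Fin.zero_le j)]
      · intro hik
        obtain ⟨l, rfl⟩ : ∃ l : Fin n, k = l.succ := by
          refine ⟨⟨k - 1, ?_⟩, ?_⟩
          · have := k.2
            have h0 := Fin.le_def.1 hik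
            simp only [Fin.val_succ] at h0
            omega
          · ext
            have h0 := Fin.le_def.1 hik
            simp only [Fin.val_succ] at h0 ⊢
            omega
        have h1 := hch i l (by simpa using hik) (fun j => v j.succ) (fun j => hv j.succ) hk
        rw [Fin.cons_succ, Fin.sum_univ_succ, if_neg (by simp), zero_add]
        refine h1.trans (le_of_eq (Finset.sum_congr rfl fun j _ => ?_))
        have h2 : (i.succ ≤ j.succ) ↔ i ≤ j := by simp
        by_cases hij : i ≤ j
        · rw [if_pos hij, if_pos (h2.2 hij)]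
          simp only [Fin.cons_succ]
          congr 2
          simp [dotProduct, Fin.sum_univ_succ]
        · rw [if_neg hij, if_neg (fun h => hij (h2.1 h))]
    · intro i
      refine Fin.cases ?_ (fun i => ?_) i
      · exact hy0
      · simp only [Fin.cons_succ]
        exact hd i
    · intro i j hij
      refine Fin.cases (fun hij => ?_) (fun i => ?_) i hij
      · exact absurd hij (by simp)
      · intro hij
        refine Fin.cases (fun hij => ?_) (fun j => ?_) j hij
        · simp only [Fin.cons_succ, Fin.cons_zero]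
        · intro hij
          simp only [Fin.cons_succ]
          exact hz i j (by simpa using hij)
    · intro i j hij
      refine Fin.cases (fun hij => ?_) (fun i => ?_) i hij
      · refine Fin.cases (fun hij => ?_) (fun j => ?_) j hij
        · exact absurd hij (by simp)
        · intro _
          simp only [Fin.cons_zero]
          rw [hys]
          exact he2 j
      · intro hij
        refine Fin.cases (fun hij => ?_) (fun j => ?_) j hij
        · exact absurd hij (by simp)
        · intro hij
          simp only [Fin.cons_succ]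
          exact hs i j (by simpa using hij)

end Pool.Agent.K6.H19.E5
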